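import Pool.Agent.helper97.BG.SigDefs

/-!
# Module DEC: decomposition of exponents
-/

namespace Pool.Agent.helper97.BG

theorem lev_dec_aux (a b c d e L : ℕ) (h0 : b + d ≤ L + 1 + c) (h1 : c + e ≤ L + 1 + d)
    (h2 : d + a ≤ L + 1 + e) (h3 : e + b ≤ L + 1 + a) (h4 : a + c ≤ L + 1 + b) :
    ∃ ta tb tc td te : ℕ, (tb + td ≤ 1 + tc ∧ tc + te ≤ 1 + td ∧ td + ta ≤ 1 + te ∧
      te + tb ≤ 1 + ta ∧ ta + tc ≤ 1 + tb) ∧ (ta ≤ a ∧ tb ≤ b ∧ tc ≤ c ∧ td ≤ d ∧ te ≤ e) ∧
      (b - tb + (d - td) ≤ L + (c - tc) ∧ c - tc + (e - te) ≤ L + (d - td) ∧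
        d - td + (a - ta) ≤ L + (e - te) ∧ e - te + (b - tb) ≤ L + (a - ta) ∧
        a - ta + (c - tc) ≤ L + (b - tb)) := by
  by_cases g1 : 1 ≤ a
  · by_cases g2 : 1 ≤ b
    · by_cases g3 : 1 ≤ c
      · by_cases g4 : 2 ≤ b
        · by_cases g5 : a + c ≤ L + b
          · exact ⟨1, 2, 1, 0, 0, by omega⟩
          · by_cases g6 : 2 ≤ a
            · by_cases g7 : 2 ≤ c
              · by_cases g8 : 1 ≤ d
                · by_cases g9 : 1 ≤ e
                  · exact ⟨1, 1, 1, 1, 1, by omega⟩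
                  · exact ⟨0, 1, 2, 1, 0, by omega⟩
                · exact ⟨1, 1, 1, 0, 0, by omega⟩
              · exact ⟨2, 1, 0, 0, 1, by omega⟩
            · exact ⟨0, 1, 2, 1, 0, by omega⟩
        · by_cases g10 : 1 ≤ d
          · by_cases g11 : 1 ≤ e
            · exact ⟨1, 1, 1, 1, 1, by omega⟩
            · exact ⟨0, 0, 1, 1, 0, by omega⟩
          · exact ⟨1, 1, 1, 0, 0, by omega⟩
      · by_cases g12 : 1 ≤ e
        · by_cases g13 : 2 ≤ a
          · by_cases g14 : e + b ≤ L + a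
            · exact ⟨2, 1, 0, 0, 1, by omega⟩
            · exact ⟨1, 1, 0, 0, 1, by omega⟩
          · exact ⟨1, 1, 0, 0, 1, by omega⟩
        · exact ⟨1, 1, 0, 0, 0, by omega⟩
    · by_cases g15 : 1 ≤ e
      · by_cases g16 : 1 ≤ d
        · by_cases g17 : 2 ≤ e
          · by_cases g18 : d + a ≤ L + e
            · exact ⟨1, 0, 0, 1, 2, by omega⟩
            · exact ⟨1, 0, 0, 1, 1, by omega⟩
          · exact ⟨1, 0, 0, 1, 1, by omega⟩
        · exact ⟨1, 0, 0, 0, 1, by omega⟩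
      · exact ⟨1, 0, 0, 0, 0, by omega⟩
  · by_cases g19 : 1 ≤ b
    · by_cases g20 : 1 ≤ c
      · by_cases g21 : 1 ≤ d
        · by_cases g22 : 2 ≤ c
          · by_cases g23 : b + d ≤ L + c
            · exact ⟨0, 1, 2, 1, 0, by omega⟩
            · exact ⟨0, 1, 1, 1, 0, by omega⟩
          · exact ⟨0, 1, 1, 1, 0, by omega⟩
        · exact ⟨0, 1, 1, 0, 0, by omega⟩
      · exact ⟨0, 1, 0, 0, 0, by omega⟩
    · by_cases g24 : 1 ≤ c
      · by_cases g25 : 1 ≤ d
        · by_cases g26 : 1 ≤ e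
          · by_cases g27 : 2 ≤ d
            · by_cases g28 : c + e ≤ L + d
              · exact ⟨0, 0, 1, 2, 1, by omega⟩
              · exact ⟨0, 0, 1, 1, 1, by omega⟩
            · exact ⟨0, 0, 1, 1, 1, by omega⟩
          · exact ⟨0, 0, 1, 1, 0, by omega⟩
        · exact ⟨0, 0, 1, 0, 0, by omega⟩
      · by_cases g29 : 1 ≤ d
        · by_cases g30 : 1 ≤ e
          · exact ⟨0, 0, 0, 1, 1, by omega⟩
          · exact ⟨0, 0, 0, 1, 0, by omega⟩
        · by_cases g31 : 1 ≤ e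
          · exact ⟨0, 0, 0, 0, 1, by omega⟩
          · exact ⟨0, 0, 0, 0, 0, by omega⟩

theorem lev_iff60 {L : ℕ} {n : Fin 5 → ℕ} : Lev L n ↔
    n 1 + n 3 ≤ L + n 2 ∧ n 2 + n 4 ≤ L + n 3 ∧ n 3 + n 0 ≤ L + n 4 ∧ n 4 + n 1 ≤ L + n 0 ∧
      n 0 + n 2 ≤ L + n 1 := by
  constructor
  · intro h
    exact ⟨h 0, h 1, h 2, h 3, h 4⟩
  · rintro ⟨h0, h1, h2, h3, h4⟩ l
    fin_cases l
    · exact h0
    · exact h1
    · exact h2
    · exact h3
    · exact h4

theorem lev_dec {L : ℕ} {n : Fin 5 → ℕ} (h : Lev (L + 1) n) :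
    ∃ t : Fin 5 → ℕ, Lev 1 t ∧ (∀ i, t i ≤ n i) ∧ Lev L (fun i => n i - t i) := by
  obtain ⟨h0, h1, h2, h3, h4⟩ := lev_iff60.1 h
  obtain ⟨ta, tb, tc, td, te, h5, h6, h7⟩ := lev_dec_aux (n 0) (n 1) (n 2) (n 3) (n 4) L h0 h1 h2
    h3 h4
  refine ⟨![ta, tb, tc, td, te], lev_iff60.2 h5, ?_, lev_iff60.2 h7⟩
  intro i
  obtain ⟨h60, h61, h62, h63, h64⟩ := h6
  fin_cases i
  · exact h60
  · exact h61
  · exact h62
  · exact h63
  · exact h64

theorem lev_sum {L : ℕ} {n : Fin 5 → ℕ} (h : Lev L n) : ∑ i, n i ≤ 5 * L := by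
  obtain ⟨h0, h1, h2, h3, h4⟩ := lev_iff60.1 h
  rw [Fin.sum_univ_five]
  omega

theorem lev_add60 {L L' : ℕ} {n n' : Fin 5 → ℕ} (h : Lev L n) (h' : Lev L' n') :
    Lev (L + L') (fun i => n i + n' i) := by
  intro l
  have h1 := h l
  have h2 := h' l
  simp only
  omega

theorem lev_zero60 {n : Fin 5 → ℕ} (h : Lev 0 n) : n = 0 := by
  have h1 := lev_sum h
  rw [mul_zero, Nat.le_zero, Finset.sum_eq_zero_iff] at h1
  funext i
  exact h1 i (Finset.mem_univ i)

theorem lev_zero_zero60 (L : ℕ) : Lev L 0 := by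
  intro l
  simp

section
variable {k K : Type*} [Field k] [Field K] [Algebra k K] (d : PD k K)

theorem mon_add60 (n n' : Fin 5 → ℕ) : d.mon (fun i => n i + n' i) = d.mon n * d.mon n' := by
  unfold PD.mon
  rw [← Finset.prod_mul_distrib]
  exact Finset.prod_congr rfl fun i _ => pow_add _ _ _

theorem mon_sub60 {n t : Fin 5 → ℕ} (h : ∀ i, t i ≤ n i) :
    d.mon n = d.mon t * d.mon (fun i => n i - t i) := by
  rw [← mon_add60]
  congr 1
  funext i
  have := h i
  omega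

theorem mon_zero60 : d.mon 0 = 1 := by simp [PD.mon]

theorem PD.pow_eq (m : ℕ) : d.W ^ m = d.Wm m := by
  induction m with
  | zero =>
    rw [pow_zero, PD.Wm, Submodule.one_eq_span]
    congr 1
    ext x
    constructor
    · rintro rfl
      exact ⟨0, 0, le_rfl, lev_zero_zero60 _, by rw [mon_zero60]; simp⟩
    · rintro ⟨n, b, hb, hn, rfl⟩
      have hb0 : b = 0 := by omega
      subst hb0
      rw [lev_zero60 hn, mon_zero60]
      simp
  | succ m ih =>
    rw [pow_succ, ih]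
    apply le_antisymm
    · rw [PD.Wm, PD.W, Submodule.span_mul_span]
      refine Submodule.span_le.2 ?_
      rintro _ ⟨x, ⟨n, b, hb, hn, rfl⟩, z, hz, rfl⟩
      rcases hz with rfl | ⟨t, ht, rfl⟩
      · refine Submodule.subset_span ⟨n, b + 1, by omega, ?_, ?_⟩
        · have h1 : m + 1 - (b + 1) = m - b := by omega
          rw [h1]; exact hn
        · simp only
          rw [pow_succ, mul_assoc]
      · refine Submodule.subset_span ⟨fun i => n i + t i, b, by omega, ?_, ?_⟩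
        · have h1 : m + 1 - b = m - b + 1 := by omega
          rw [h1]; exact lev_add60 hn ht
        · simp only
          rw [mon_add60]
          ring
    · rw [PD.Wm]
      refine Submodule.span_le.2 ?_
      rintro _ ⟨n, b, hb, hn, rfl⟩
      rcases Nat.lt_or_ge m b with hlt | hle
      · have hb' : b = m + 1 := by omega
        subst hb'
        have h1 : m + 1 - (m + 1) = 0 := by omega
        rw [h1] at hn
        have h2 : d.mon n * d.y ^ (m + 1) = (d.mon 0 * d.y ^ m) * d.y := by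
          rw [lev_zero60 hn, pow_succ, mul_assoc]
        rw [h2]
        refine Submodule.mul_mem_mul (Submodule.subset_span ⟨0, m, le_rfl, lev_zero_zero60 _, rfl⟩)
          (Submodule.subset_span (Set.mem_insert _ _))
      · have h1 : m + 1 - b = m - b + 1 := by omega
        rw [h1] at hn
        obtain ⟨t, ht, htn, hnt⟩ := lev_dec hn
        have h2 : d.mon n * d.y ^ b = (d.mon (fun i => n i - t i) * d.y ^ b) * d.mon t := by
          rw [mon_sub60 d htn]; ring
        rw [h2]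
        exact Submodule.mul_mem_mul (Submodule.subset_span ⟨_, b, hle, hnt, rfl⟩)
          (Submodule.subset_span (Set.mem_insert_of_mem _ ⟨t, ht, rfl⟩))

end

end Pool.Agent.helper97.BG
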