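import Pool.Agent.helper60.BG.DEC

/-!
# Module SHF: the family `M` is a torsion-free sheaf
-/

namespace Pool.Agent.helper97.BG

/-- decomposition into vectors of level one -/
theorem lev_decomp60 (L : ℕ) : ∀ {n : Fin 5 → ℕ}, Lev L n →
    ∃ t : Fin L → Fin 5 → ℕ, (∀ j, Lev 1 (t j)) ∧ ∀ i, n i = ∑ j, t j i := by
  induction L with
  | zero =>
    intro n hn
    refine ⟨fun j => j.elim0, fun j => j.elim0, fun i => ?_⟩
    rw [lev_zero60 hn]
    simp
  | succ L ih =>
    intro n hn
    obtain ⟨t, ht, htn, hnt⟩ := lev_dec hn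
    obtain ⟨s, hs, hsn⟩ := ih hnt
    refine ⟨Fin.cons t s, ?_, ?_⟩
    · intro j
      refine Fin.cases ?_ (fun j => ?_) j
      · simpa using ht
      · simpa using hs j
    · intro i
      rw [Fin.sum_univ_succ]
      simp only [Fin.cons_zero, Fin.cons_succ]
      rw [← hsn i]
      have := htn i
      omega

theorem lev_finset_sum60 {ι : Type*} (s : Finset ι) (t : ι → Fin 5 → ℕ)
    (ht : ∀ j ∈ s, Lev 1 (t j)) : Lev s.card (fun i => ∑ j ∈ s, t j i) := by
  intro l
  simp only
  have h1 : ∀ j ∈ s, t j (l + 1) + t j (l + 3) ≤ 1 + t j (l + 2) := fun j hj => ht j hj l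
  have h2 := Finset.sum_le_sum h1
  rw [Finset.sum_add_distrib, Finset.sum_add_distrib, Finset.sum_const, smul_eq_mul,
    mul_one] at h2
  exact h2

/-- pigeonhole: a vector of large level `2 (m + 1)` contains a vector of level one twice -/
theorem lev_double60 {m : ℕ} (hm : 7776 ≤ m) {n : Fin 5 → ℕ} (hn : Lev (2 * (m + 1)) n) :
    ∃ t : Fin 5 → ℕ, Lev 1 t ∧ (∀ i, 2 * t i ≤ n i) ∧ Lev (2 * m) (fun i => n i - 2 * t i) := by
  classical
  obtain ⟨t, ht, hnt⟩ := lev_decomp60 _ hn
  have hle : ∀ j i, t j i ≤ 5 := by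
    intro j i
    have h1 := lev_sum (ht j)
    have h2 : t j i ≤ ∑ i, t j i := Finset.single_le_sum (fun _ _ => Nat.zero_le _)
      (Finset.mem_univ i)
    omega
  let f : Fin (2 * (m + 1)) → (Fin 5 → Fin 6) := fun j i => ⟨t j i, by have := hle j i; omega⟩
  have hcard : Fintype.card (Fin 5 → Fin 6) < Fintype.card (Fin (2 * (m + 1))) := by
    rw [Fintype.card_fin, Fintype.card_fun, Fintype.card_fin, Fintype.card_fin]
    norm_num
    omega
  obtain ⟨a, b, hab, hf⟩ := Fintype.exists_ne_map_eq_of_card_lt f hcard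
  have htab : t a = t b := by
    funext i
    have := congrFun hf i
    simpa [f] using this
  have hsum : ∀ i, n i = (∑ j ∈ (Finset.univ.erase a).erase b, t j i) + 2 * t a i := by
    intro i
    rw [hnt i, ← Finset.add_sum_erase Finset.univ _ (Finset.mem_univ a),
      ← Finset.add_sum_erase (Finset.univ.erase a) _
        (Finset.mem_erase.2 ⟨hab.symm, Finset.mem_univ b⟩), ← htab]
    ring
  refine ⟨t a, ht a, fun i => ?_, ?_⟩
  · rw [hsum i]; omega
  · have h1 := lev_finset_sum60 ((Finset.univ.erase a).erase b) t (fun j _ => ht j)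
    have h2 : ((Finset.univ.erase a).erase b).card = 2 * m := by
      rw [Finset.card_erase_of_mem (Finset.mem_erase.2 ⟨hab.symm, Finset.mem_univ b⟩),
        Finset.card_erase_of_mem (Finset.mem_univ a), Finset.card_univ, Fintype.card_fin]
      omega
    rw [h2] at h1
    have h3 : (fun i => n i - 2 * t a i) = fun i => ∑ j ∈ (Finset.univ.erase a).erase b, t j i := by
      funext i
      rw [hsum i]
      omega
    rw [h3]
    exact h1

theorem lev_finite60 (L : ℕ) : {n : Fin 5 → ℕ | Lev L n}.Finite := by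
  refine Set.Finite.subset (Set.Finite.pi' (fun _ : Fin 5 => Set.finite_Iic (5 * L))) ?_
  intro n hn i
  have h1 := lev_sum hn
  have h2 : n i ≤ ∑ i, n i := Finset.single_le_sum (fun _ _ => Nat.zero_le _) (Finset.mem_univ i)
  exact h2.trans h1

variable {k K : Type*} [Field k] [Field K] [Algebra k K] (d : PD k K)

theorem mon_two60 (t : Fin 5 → ℕ) : d.mon t ^ 2 = d.mon (fun i => 2 * t i) := by
  unfold PD.mon
  rw [← Finset.prod_pow]
  exact Finset.prod_congr rfl fun i _ => by rw [← pow_mul, mul_comm]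

/-- generators of `Mm` -/
def gens60 (m : ℕ) : Set K := {x | ∃ n b, b ≤ m ∧ Lev (2 * (m - b)) n ∧
  x = d.mon n * d.y ^ (2 * b)}

theorem gens_finite60 (m : ℕ) : (gens60 d m).Finite := by
  have h1 : gens60 d m ⊆ ⋃ b ∈ Set.Iic m, (fun n => d.mon n * d.y ^ (2 * b)) ''
      {n : Fin 5 → ℕ | Lev (2 * (m - b)) n} := by
    rintro _ ⟨n, b, hb, hn, rfl⟩
    exact Set.mem_biUnion (Set.mem_Iic.2 hb) ⟨n, hn, rfl⟩
  exact Set.Finite.subset ((Set.finite_Iic m).biUnion fun b _ => (lev_finite60 _).image _) h1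

variable [IsAlgClosed k] [CharP K 2]

theorem M_eq60 (m : ℕ) : d.M m = Submodule.span k (Fr.mk '' gens60 d m) := by
  apply le_antisymm
  · intro v hv
    have h1 : Fr.mk.symm v ∈ Submodule.span k (gens60 d m) := hv
    have h2 : ∀ x ∈ Submodule.span k (gens60 d m),
        Fr.mk x ∈ Submodule.span k (Fr.mk '' gens60 d m) := by
      intro x hx
      induction hx using Submodule.span_induction with
      | mem x hx => exact Submodule.subset_span ⟨x, hx, rfl⟩
      | zero => rw [map_zero]; exact Submodule.zero_mem _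
      | add x y _ _ hx hy => rw [map_add]; exact Submodule.add_mem _ hx hy
      | smul a x _ hx =>
        obtain ⟨z, hz⟩ := IsAlgClosed.exists_pow_nat_eq a (n := 2) (by norm_num)
        have h3 : Fr.mk (a • x) = z • (Fr.mk x : Fr K) := by
          change (Fr.mk (a • x) : Fr K) = Fr.mk (algebraMap k K z ^ 2 * x)
          rw [← map_pow, hz, Algebra.smul_def]
        rw [h3]
        exact (Submodule.span k (Fr.mk '' gens60 d m)).smul_mem z hx
    have h3 := h2 _ h1
    rwa [AddEquiv.apply_symm_apply] at h3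
  · refine Submodule.span_le.2 ?_
    rintro _ ⟨x, hx, rfl⟩
    change x ∈ d.Mm m
    exact Submodule.subset_span hx

omit [IsAlgClosed k] in
theorem smul_mem60 (m : ℕ) {f : K} (hf : f ∈ d.W) {x : K} (hx : x ∈ d.Mm m) :
    f ^ 2 * x ∈ d.Mm (m + 1) := by
  induction hf using Submodule.span_induction with
  | zero => simp
  | add f g _ _ hf hg =>
    have h1 : (f + g) ^ 2 = f ^ 2 + g ^ 2 := CharTwo.add_sq f g
    rw [h1, add_mul]
    exact Submodule.add_mem _ hf hg
  | smul a f _ hf =>
    have h1 : (a • f) ^ 2 * x = a ^ 2 • (f ^ 2 * x) := by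
      rw [smul_pow, smul_mul_assoc]
    rw [h1]
    exact Submodule.smul_mem _ _ hf
  | mem f hf =>
    induction hx using Submodule.span_induction with
    | zero => simp
    | add x y _ _ hx hy => rw [mul_add]; exact Submodule.add_mem _ hx hy
    | smul a x _ hx => rw [mul_smul_comm]; exact Submodule.smul_mem _ _ hx
    | mem x hx =>
      obtain ⟨n, b, hb, hn, rfl⟩ := hx
      rcases hf with rfl | ⟨t, ht, rfl⟩
      · refine Submodule.subset_span ⟨n, b + 1, by omega, ?_, by ring⟩
        have h1 : m + 1 - (b + 1) = m - b := by omega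
        rw [h1]; exact hn
      · refine Submodule.subset_span ⟨fun i => n i + 2 * t i, b, by omega, ?_, ?_⟩
        · have h1 : 2 * (m + 1 - b) = 2 * (m - b) + (1 + 1) := by omega
          rw [h1]
          refine lev_add60 hn ?_
          have h2 := lev_add60 ht ht
          have h3 : (fun i => 2 * t i) = fun i => t i + t i := by funext i; ring
          rw [h3]; exact h2
        · rw [mon_two60, mon_add60 d n (fun i => 2 * t i)]
          ring

theorem PD.isTorsionFreeSheaf [CharP k 2] : IsTorsionFreeSheaf d.W d.M := by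
  refine ⟨?_, ?_, 7776, ?_⟩
  · intro m
    rw [M_eq60]
    exact Module.Finite.span_of_finite k ((gens_finite60 d m).image _)
  · intro m f hf v hv
    have h1 : Fr.mk.symm v ∈ d.Mm m := hv
    have h2 := smul_mem60 d m hf h1
    exact h2
  · intro m hm
    rw [M_eq60]
    refine Submodule.span_le.2 ?_
    rintro _ ⟨_, ⟨n, b, hb, hn, rfl⟩, rfl⟩
    refine Submodule.subset_span ?_
    rcases Nat.eq_zero_or_pos b with hb0 | hb0
    · subst hb0
      have h1 : 2 * (m + 1 - 0) = 2 * (m + 1) := by omega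
      rw [h1] at hn
      obtain ⟨t, ht, htn, hnt⟩ := lev_double60 hm hn
      refine ⟨d.mon t, Submodule.subset_span (Set.mem_insert_of_mem _ ⟨t, ht, rfl⟩),
        Fr.mk (d.mon (fun i => n i - 2 * t i)), ?_, ?_⟩
      · rw [PD.mk_mem_M]
        exact Submodule.subset_span ⟨_, 0, Nat.zero_le _, by simpa using hnt, by simp⟩
      · change Fr.mk (d.mon n * d.y ^ (2 * 0)) =
          Fr.mk (d.mon t ^ 2 * (d.mon (fun i => n i - 2 * t i)))
        rw [mon_two60, ← mon_sub60 d htn]
        simp
    · refine ⟨d.y, Submodule.subset_span (Set.mem_insert _ _),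
        Fr.mk (d.mon n * d.y ^ (2 * (b - 1))), ?_, ?_⟩
      · rw [PD.mk_mem_M]
        refine Submodule.subset_span ⟨n, b - 1, by omega, ?_, rfl⟩
        have h1 : m - (b - 1) = m + 1 - b := by omega
        rw [h1]; exact hn
      · change Fr.mk (d.mon n * d.y ^ (2 * b)) =
          Fr.mk (d.y ^ 2 * (d.mon n * d.y ^ (2 * (b - 1))))
        have h1 : 2 * b = 2 + 2 * (b - 1) := by omega
        rw [h1, pow_add]
        congr 1
        have h2 : 2 + 2 * (b - 1) - 2 = 2 * (b - 1) := by omega
        ring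

end Pool.Agent.helper97.BG
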